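import Pool.Agent.P.MP_440ce3_nt.All

set_option autoImplicit false

namespace Pool.Agent.Results.MP_440ce3_nt.DegreeThree

open Polynomial

/-- All five polynomials are constant multiples of one polynomial. -/
def ProjConst (a b c d e : ℚ[X]) : Prop :=
  ∃ (p : ℚ[X]) (k₁ k₂ k₃ k₄ k₅ : ℚ),
    a = C k₁ * p ∧ b = C k₂ * p ∧ c = C k₃ * p ∧ d = C k₄ * p ∧ e = C k₅ * p

/-- The entries of `(a, b, c, d, -e)` are matched by an involution of the five positions into
pairs `u, -u`; a fixed position holds `0`. -/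
def Trivial (a b c d e : ℚ[X]) : Prop :=
  ∃ σ : Equiv.Perm (Fin 5), σ * σ = 1 ∧ ∀ i, ![a, b, c, d, -e] (σ i) = -![a, b, c, d, -e] i

/-- The equation `a^5 + b^5 + c^5 + d^5 = e^5` has no parametric solution of degree at most 3. -/
theorem result (a b c d e : ℚ[X]) (h : a ^ 5 + b ^ 5 + c ^ 5 + d ^ 5 = e ^ 5)
    (ha : a.natDegree ≤ 3) (hb : b.natDegree ≤ 3) (hc : c.natDegree ≤ 3) (hd : d.natDegree ≤ 3)
    (he : e.natDegree ≤ 3) : ProjConst a b c d e ∨ Trivial a b c d e := by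
  rcases Pool.Agent.P.MP_440ce3_nt.all_MAIN ![a, b, c, d, -e]
    (by simp only [Fin.sum_univ_five]; simp; linear_combination h)
    (fun i => by fin_cases i <;> simp [ha, hb, hc, hd, he]) with ⟨p, k, hk⟩ | h2
  · refine Or.inl ⟨p, k 0, k 1, k 2, k 3, -k 4, hk 0, hk 1, hk 2, hk 3, ?_⟩
    have h4 : -e = C (k 4) * p := hk 4
    rw [map_neg]
    linear_combination -h4
  · exact Or.inr h2

end Pool.Agent.Results.MP_440ce3_nt.DegreeThree
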