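import Pool.Agent.P.MP_440ce3_nt.LV.Main

set_option autoImplicit false

namespace Pool.Agent.Results.MP_440ce3_nt.FiniteOnSurfaces

open MvPolynomial
open scoped Polynomial

/-- On a smooth surface cut out of the Fermat quintic threefold by a form `h` there are only
finitely many parametric solutions, up to a common factor and a substitution. -/
theorem result (k : Type*) [Field k] [CharZero k] (h : MvPolynomial (Fin 5) k) (e : ℕ)
    (he : h.IsHomogeneous e)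
    (smooth : ∀ p : Fin 5 → AlgebraicClosure k, p ≠ 0 →
      p 0 ^ 5 + p 1 ^ 5 + p 2 ^ 5 + p 3 ^ 5 = p 4 ^ 5 → aeval p h = 0 →
        LinearIndependent (AlgebraicClosure k)
          ![![p 0 ^ 4, p 1 ^ 4, p 2 ^ 4, p 3 ^ 4, -p 4 ^ 4], fun j => aeval p (pderiv j h)]) :
    ∃ S : Finset (Fin 5 → k[X]),
      (∀ y ∈ S, y 0 ^ 5 + y 1 ^ 5 + y 2 ^ 5 + y 3 ^ 5 = y 4 ^ 5 ∧ aeval y h = 0) ∧
      ∀ x : Fin 5 → k[X], x 0 ^ 5 + x 1 ^ 5 + x 2 ^ 5 + x 3 ^ 5 = x 4 ^ 5 → aeval x h = 0 →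
        (∃ (c : Fin 5 → k) (g : k[X]), ∀ i, x i = Polynomial.C (c i) * g) ∨
          ∃ y ∈ S, ∃ g r : RatFunc k,
            ∀ i, algebraMap k[X] (RatFunc k) (x i) = g * Polynomial.aeval r (y i) := by
  obtain ⟨S, h0, hS⟩ := Pool.Agent.P.MP_440ce3_nt.LV.main k h e he smooth
  refine ⟨S, h0, fun x h1 h2 => or_iff_not_imp_left.2 fun h3 => hS _ ?_ ?_ ?_⟩
  · simpa only [map_add, map_pow] using congrArg (algebraMap k[X] (RatFunc k)) h1
  · exact (MvPolynomial.comp_aeval_apply x (IsScalarTower.toAlgHom k k[X] (RatFunc k)) h).symm.trans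
      (by rw [h2, map_zero])
  · rintro ⟨c, g, hg⟩
    by_cases h0 : ∃ j, c j ≠ 0
    · obtain ⟨j, hj⟩ := h0
      refine h3 ⟨fun i => c i / c j, x j, fun i => RatFunc.algebraMap_injective k ?_⟩
      rw [map_mul, hg, hg, RatFunc.algebraMap_C, ← RatFunc.smul_eq_C_mul, smul_smul,
        div_mul_cancel₀ _ hj]
    · refine h3 ⟨0, 0, fun i => RatFunc.algebraMap_injective k ?_⟩
      rw [hg, not_not.1 fun e => h0 ⟨i, e⟩, zero_smul, mul_zero, map_zero]

end Pool.Agent.Results.MP_440ce3_nt.FiniteOnSurfaces
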